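import Pool.Agent.Q168.MY.Loc

/-!
# The Hasse-Minkowski theorem for quaternary forms, and Meyer's theorem
-/

set_option autoImplicit false

namespace Pool.Agent.Q168.MY

open Pool.Agent.W313.BMX (Splits splits_comm splits_mul_sq)
open Finset

theorem not_dvd_prod {l : ℕ} (hl : l.Prime) (S : Finset ℕ) (hS : ∀ k ∈ S, k.Prime) (t : ℕ → ℕ)
    (hlS : l ∉ S) : ¬ (l : ℤ) ∣ ((∏ k ∈ S, k ^ t k : ℕ) : ℤ) := by
  intro h
  rw [Int.natCast_dvd_natCast, hl.prime.dvd_finsetProd_iff] at h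
  obtain ⟨k, hk, h⟩ := h
  have := (Nat.prime_dvd_prime_iff_eq hl (hS k hk)).1 (hl.dvd_of_dvd_pow h)
  exact hlS (this ▸ hk)

/-- **Approximation by a prime number times bad primes.** -/
theorem approx (S : Finset ℕ) (hS : ∀ l ∈ S, l.Prime) {s : ℤ} (hs : s = 1 ∨ s = -1)
    (x : ∀ l : ℕ, ∀ _ : Fact l.Prime, ℚ_[l]) (hx : ∀ l hl, x l hl ≠ 0) :
    ∃ (q : ℕ) (z : ℤ), q.Prime ∧ q ∉ S ∧ z ≠ 0 ∧ 0 < s * z ∧
      (∀ l ∈ S, ∀ hl : Fact l.Prime, IsSquare ((z : ℚ_[l]) * x l hl)) ∧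
      ∀ l : ℕ, l.Prime → l ∉ S → l ≠ q → ¬ (l : ℤ) ∣ z := by
  classical
  have hrep : ∀ l : ℕ, ∃ (t : ℕ) (m : ℤ), (l.Prime → ¬ (l : ℤ) ∣ m) ∧
      ∀ hl : Fact l.Prime, ∃ c : ℚ_[l], c ≠ 0 ∧ x l hl = ((l ^ t * m : ℤ) : ℚ_[l]) * c ^ 2 := by
    intro l
    by_cases hl : l.Prime
    · haveI : Fact l.Prime := ⟨hl⟩
      obtain ⟨t, m, c, -, hm, hc, h⟩ := Pool.Agent.W310.BMX.odd4 l (x l ⟨hl⟩) (hx l ⟨hl⟩)
      exact ⟨t, m, fun _ => hm, fun _ => ⟨c, hc, h⟩⟩
    · exact ⟨0, 1, fun h => absurd h hl, fun h => absurd h.out hl⟩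
  choose t m hm hc using hrep
  obtain ⟨P, hP⟩ : ∃ P : ℕ, P = ∏ k ∈ S, k ^ t k := ⟨_, rfl⟩
  obtain ⟨Q, hQ⟩ : ∃ Q : ℕ → ℕ, Q = fun l => ∏ k ∈ S.erase l, k ^ t k := ⟨_, rfl⟩
  have hPQ : ∀ l ∈ S, P = l ^ t l * Q l := by
    intro l hl
    rw [hP, hQ]
    exact (Finset.mul_prod_erase S (fun k => k ^ t k) hl).symm
  have hQl : ∀ l ∈ S, ¬ (l : ℤ) ∣ ((Q l : ℕ) : ℤ) := by
    intro l hl
    rw [hQ]
    exact not_dvd_prod (hS l hl) _ (fun k hk => hS k (Finset.mem_of_mem_erase hk)) t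
      (Finset.notMem_erase l S)
  have hP0 : P ≠ 0 := by
    rw [hP]
    exact Finset.prod_ne_zero_iff.2 fun k hk => pow_ne_zero _ (hS k hk).ne_zero
  have hs0 : s ≠ 0 := by rcases hs with rfl | rfl <;> norm_num
  have hs1 : ∀ l : ℕ, l.Prime → ¬ (l : ℤ) ∣ s := by
    intro l hl h
    have h1 : (l : ℤ) ∣ 1 := by
      rcases hs with rfl | rfl
      · exact h
      · exact (dvd_neg.1 (by simpa using h))
    have := Int.eq_one_of_dvd_one (by positivity) h1
    exact hl.one_lt.ne' (by exact_mod_cast this)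
  -- the residues
  obtain ⟨M, hM⟩ : ∃ M : ℕ → ℕ, M = fun l => if l = 2 then 8 else l := ⟨_, rfl⟩
  have hMl : ∀ l, l ∣ M l := by
    intro l
    rw [hM]
    by_cases h : l = 2
    · simp only [h, if_true]; norm_num
    · simp only [h, if_false, dvd_refl]
  have hM0 : ∀ l ∈ S, M l ≠ 0 := by
    intro l hl h
    have h1 := hMl l
    rw [hM] at h
    by_cases h2 : l = 2
    · simp only [h2, if_true] at h; norm_num at h
    · simp only [h2, if_false] at h
      exact (hS l hl).ne_zero h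
  have hMc : Set.Pairwise (S : Set ℕ) (Function.onFun Nat.Coprime M) := by
    intro a ha b hb hab
    have hpa := hS a ha
    have hpb := hS b hb
    have hcop : Nat.Coprime a b := (Nat.coprime_primes hpa hpb).2 hab
    show Nat.Coprime (M a) (M b)
    rw [hM]
    by_cases h1 : a = 2 <;> by_cases h2 : b = 2
    · exact absurd (h1.trans h2.symm) hab
    · simp only [h1, h2, if_true, if_false]
      rw [h1] at hcop
      exact Nat.Coprime.pow_left 3 hcop
    · simp only [h1, h2, if_true, if_false]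
      rw [h2] at hcop
      exact Nat.Coprime.pow_right 3 hcop
    · simp only [h1, h2, if_false]
      exact hcop
  obtain ⟨r, hr⟩ : ∃ r : ℕ → ℤ, r = fun l => s * Q l * m l := ⟨_, rfl⟩
  have hrl : ∀ l ∈ S, ¬ (l : ℤ) ∣ r l := by
    intro l hl h
    have hlp : Prime (l : ℤ) := Nat.prime_iff_prime_int.1 (hS l hl)
    rw [hr] at h
    rcases hlp.dvd_or_dvd h with h | h
    · rcases hlp.dvd_or_dvd h with h | h
      · exact hs1 l (hS l hl) h
      · exact hQl l hl h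
    · exact hm l (hS l hl) h
  obtain ⟨k, hk⟩ := Nat.chineseRemainderOfFinset (fun l => (r l % M l).toNat) M S hM0 hMc
  have hkr : ∀ l ∈ S, (M l : ℤ) ∣ (k : ℤ) - r l := by
    intro l hl
    have h1 := (Nat.modEq_iff_dvd.1 (hk l hl))
    have h2 : ((r l % M l).toNat : ℤ) = r l % M l :=
      Int.toNat_of_nonneg (Int.emod_nonneg _ (by exact_mod_cast hM0 l hl))
    rw [h2] at h1
    have h3 : (M l : ℤ) ∣ r l - r l % M l := Int.dvd_self_sub_emod
    have h4 := dvd_add h1 h3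
    have h5 : (k : ℤ) - r l = -(r l % ↑(M l) - ↑k + (r l - r l % ↑(M l))) := by ring
    rw [h5]
    exact (dvd_neg).2 h4
  obtain ⟨N, hN⟩ : ∃ N : ℕ, N = ∏ l ∈ S, M l := ⟨_, rfl⟩
  have hN0 : N ≠ 0 := by rw [hN]; exact Finset.prod_ne_zero_iff.2 hM0
  have hMN : ∀ l ∈ S, M l ∣ N := fun l hl => by rw [hN]; exact Finset.dvd_prod_of_mem M hl
  have hkc : Nat.Coprime k N := by
    rw [hN]
    refine Nat.Coprime.prod_right fun l hl => ?_
    have hlk : ¬ l ∣ k := by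
      intro h
      apply hrl l hl
      have h1 : (l : ℤ) ∣ (k : ℤ) - r l := (Int.natCast_dvd_natCast.2 (hMl l)).trans (hkr l hl)
      have h2 := dvd_sub (Int.natCast_dvd_natCast.2 h) h1
      rwa [sub_sub_cancel] at h2
    have hc1 : Nat.Coprime k l := ((hS l hl).coprime_iff_not_dvd.2 hlk).symm
    rw [hM]
    by_cases h2 : l = 2
    · simp only [h2, if_true]
      rw [h2] at hc1
      exact Nat.Coprime.pow_right 3 hc1
    · simp only [h2, if_false]
      exact hc1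
  have : NeZero N := ⟨hN0⟩
  obtain ⟨q, hq1, hq, hqk⟩ := Nat.forall_exists_prime_gt_and_eq_mod
    (((ZMod.isUnit_iff_coprime k N).2 hkc)) (∑ l ∈ S, l)
  have hqS : q ∉ S := fun h => absurd (Finset.single_le_sum (f := fun l => l) (fun _ _ => Nat.zero_le _) h)
    (by omega)
  have hqk' : (N : ℤ) ∣ (q : ℤ) - k := by
    have h1 : (((q : ℤ) - k : ℤ) : ZMod N) = 0 := by
      push_cast
      rw [hqk, sub_self]
    exact (ZMod.intCast_zmod_eq_zero_iff_dvd _ N).1 h1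
  have hqr : ∀ l ∈ S, (M l : ℤ) ∣ (q : ℤ) - r l := by
    intro l hl
    have h1 := dvd_add ((Int.natCast_dvd_natCast.2 (hMN l hl)).trans hqk') (hkr l hl)
    rwa [sub_add_sub_cancel] at h1
  refine ⟨q, s * P * q, hq, hqS, ?_, ?_, ?_, ?_⟩
  · exact mul_ne_zero (mul_ne_zero hs0 (by exact_mod_cast hP0)) (by exact_mod_cast hq.ne_zero)
  · have h1 : s * (s * P * q) = (P : ℤ) * q := by rcases hs with rfl | rfl <;> ring
    rw [h1]
    exact mul_pos (by exact_mod_cast Nat.pos_of_ne_zero hP0) (by exact_mod_cast hq.pos)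
  · intro l hl hlp
    obtain ⟨c, hc0, hcx⟩ := hc l hlp
    have hl0 : (l : ℚ_[l]) ≠ 0 := by exact_mod_cast hlp.out.ne_zero
    have e1 : ((s * P * q : ℤ) : ℚ_[l]) * x l hlp =
        ((r l * q : ℤ) : ℚ_[l]) * ((l : ℚ_[l]) ^ t l * c) ^ 2 := by
      rw [hcx, hPQ l hl, hr]
      push_cast
      ring
    rw [e1, isSquare_mul_sq (mul_ne_zero (pow_ne_zero _ hl0) hc0)]
    by_cases h2 : l = 2
    · subst h2
      have h3 : (8 : ℤ) ∣ (q : ℤ) - r 2 := by
        have := hqr 2 hl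
        rw [hM] at this
        simpa using this
      have h4 : ¬ (2 : ℤ) ∣ r 2 := by exact_mod_cast hrl 2 hl
      exact Pool.Agent.W975.BMX.two1 (r 2) q (by omega) (by omega)
    · have h3 : (l : ℤ) ∣ (q : ℤ) - r l := (Int.natCast_dvd_natCast.2 (hMl l)).trans (hqr l hl)
      have h4 : ¬ (l : ℤ) ∣ (q : ℤ) := by
        intro h
        apply hrl l hl
        have h5 := dvd_sub h h3
        rwa [sub_sub_cancel] at h5
      refine Pool.Agent.W335.BMX.odd1 l h2 (r l) q (hrl l hl) h4 ?_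
      rw [legendreSym.mod l (r l), legendreSym.mod l (q : ℤ)]
      congr 1
      exact ((Int.emod_emod_of_dvd _ dvd_rfl).symm.trans (by
        rw [Int.emod_emod_of_dvd _ dvd_rfl]
        exact (Int.emod_emod_of_dvd _ dvd_rfl).symm.trans (by
          rw [Int.emod_emod_of_dvd _ dvd_rfl]
          exact (Int.emod_emod_of_dvd (r l) (dvd_refl (l : ℤ))).symm.trans (by
            rw [Int.emod_emod_of_dvd _ dvd_rfl]
            exact (Int.ModEq.symm (Int.modEq_iff_dvd.2 (by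
              have := (dvd_neg (a := (l : ℤ))).2 h3
              rwa [neg_sub] at this)))))))
  · intro l hl hlS hlq h
    have hlp : Prime (l : ℤ) := Nat.prime_iff_prime_int.1 hl
    rcases hlp.dvd_or_dvd h with h | h
    · rcases hlp.dvd_or_dvd h with h | h
      · exact hs1 l hl h
      · rw [hP] at h
        exact not_dvd_prod hl S hS t hlS h
    · exact hlq ((Nat.prime_dvd_prime_iff_eq hl hq).1 (Int.natCast_dvd_natCast.1 h))

end Pool.Agent.Q168.MY
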