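import Pool.Agent.W351.HB.PF
import Pool.Agent.W215.HB.Bilo
import Pool.Agent.W864.HB.Bilt
import Pool.Agent.H527R9.CC.T_HM
import Pool.Agent.H527R9.CC.T_HMA
import Pool.Agent.H527R9.CC.T_HMB
import Pool.Agent.H527R9.CC.T_HS

/-!
# Quaternary and quinary quadratic forms: local part
-/

set_option autoImplicit false

namespace Pool.Agent.Q168.MY

open Pool.Agent.W313.BMX (Splits splits_comm splits_mul_sq)

/-! ### Elementary properties -/

section elem

variable {K : Type} [Field K]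

theorem splits_neg_self (a : K) : Splits a (-a) := ⟨1, 1, 0, Or.inl one_ne_zero, by ring⟩

theorem splits_of_sq_left {a b : K} (h : IsSquare a) : Splits a b := by
  obtain ⟨r, rfl⟩ := h
  exact ⟨1, 0, r, Or.inl one_ne_zero, by ring⟩

theorem splits_of_sq_right {a b : K} (h : IsSquare b) : Splits a b :=
  splits_comm.2 (splits_of_sq_left h)

theorem splits_mul_sq' {a b c : K} (hc : c ≠ 0) : Splits a (b * c ^ 2) ↔ Splits a b := by
  rw [splits_comm, splits_mul_sq hc, splits_comm]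

theorem isSquare_mul_sq {a c : K} (hc : c ≠ 0) : IsSquare (a * c ^ 2) ↔ IsSquare a := by
  constructor
  · rintro ⟨r, hr⟩
    refine ⟨r / c, ?_⟩
    field_simp
    linear_combination hr
  · rintro ⟨r, rfl⟩
    exact ⟨r * c, by ring⟩

/-- the Hilbert symbol is bilinear -/
def BL (K : Type) [Field K] : Prop := ∀ a b c : K, a ≠ 0 → b ≠ 0 → c ≠ 0 →
  (Splits a (b * c) ↔ (Splits a b ↔ Splits a c))

end elem

theorem exists_int (p : ℕ) [Fact p.Prime] (a : ℚ_[p]) (ha : a ≠ 0) :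
    ∃ (n : ℤ) (c : ℚ_[p]), n ≠ 0 ∧ c ≠ 0 ∧ a = (n : ℚ_[p]) * c ^ 2 := by
  obtain ⟨t, m, c, -, hm, hc, h⟩ := Pool.Agent.W310.BMX.odd4 p a ha
  refine ⟨(p : ℤ) ^ t * m, c, ?_, hc, h⟩
  rintro h0
  rw [h0] at h
  apply ha
  rw [h]
  simp

theorem bl_padic (p : ℕ) [hp : Fact p.Prime] : BL ℚ_[p] := by
  intro a b c ha hb hc
  obtain ⟨n, u, hn, hu, rfl⟩ := exists_int p a ha
  obtain ⟨m, v, hm, hv, rfl⟩ := exists_int p b hb
  obtain ⟨k, w, hk, hw, rfl⟩ := exists_int p c hc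
  have e1 : (m : ℚ_[p]) * v ^ 2 * (k * w ^ 2) = ((m * k : ℤ) : ℚ_[p]) * (v * w) ^ 2 := by
    push_cast; ring
  rw [e1, splits_mul_sq hu, splits_mul_sq' (mul_ne_zero hv hw), splits_mul_sq hu, splits_mul_sq' hv,
    splits_mul_sq hu, splits_mul_sq' hw]
  by_cases hp2 : p = 2
  · subst hp2
    exact Pool.Agent.W864.HBm.bilt_ n m k hn hm hk
  · exact Pool.Agent.W215.HB.bilo_ p hp2 n m k hn hm hk

/-- from the completions to `ℚ`, one prime being omitted -/
theorem conic_global (a b : ℤ) (ha : a ≠ 0) (hb : b ≠ 0) (q : ℕ) [hq : Fact q.Prime]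
    (hR : Splits (a : ℝ) (b : ℝ))
    (hp : ∀ (p : ℕ) [Fact p.Prime], p ≠ q → Splits (a : ℚ_[p]) (b : ℚ_[p])) :
    Splits (a : ℚ) (b : ℚ) := by
  have h := Pool.Agent.W351.HB.PF.pf_ Pool.Agent.W215.HB.bilo_ Pool.Agent.W864.HBm.bilt_ a b ha hb q hR hp
  refine Pool.Agent.H527R9.CC.t_HM Pool.Agent.H527R9.CC.t_HMA Pool.Agent.H527R9.CC.t_HMB
    Pool.Agent.H527R9.CC.t_HS a b ha hb hR ?_
  intro p hpp
  by_cases hpq : p = q
  · subst hpq
    exact h
  · exact hp p hpq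

/-- nonresidues -/
theorem exists_nonresidue (p : ℕ) [hp : Fact p.Prime] (hp2 : p ≠ 2) :
    ∃ e : ℤ, ¬ (p : ℤ) ∣ e ∧ legendreSym p e ≠ 1 := by
  obtain ⟨a, ha⟩ := FiniteField.exists_nonsquare (F := ZMod p)
    (by rw [ZMod.ringChar_zmod_n]; exact hp2)
  obtain ⟨e, rfl⟩ := ZMod.intCast_surjective a
  have h0 : ((e : ℤ) : ZMod p) ≠ 0 := by
    intro h
    rw [h] at ha
    exact ha ⟨0, by simp⟩
  refine ⟨e, fun h => h0 ((ZMod.intCast_zmod_eq_zero_iff_dvd e p).2 h), ?_⟩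
  intro h
  exact ha ((legendreSym.eq_one_iff p h0).1 h)

/-- The Hilbert symbol is nondegenerate. -/
theorem nondeg (p : ℕ) [hp : Fact p.Prime] (a : ℚ_[p]) (ha : a ≠ 0) (hsq : ¬ IsSquare a) :
    ∃ y : ℚ_[p], y ≠ 0 ∧ ¬ Splits y a := by
  obtain ⟨t, m, c, ht, hm, hc, h⟩ := Pool.Agent.W310.BMX.odd4 p a ha
  have hcast : ∀ n : ℤ, n ≠ 0 → (n : ℚ_[p]) ≠ 0 := fun n hn => by exact_mod_cast hn
  have hn1 : ¬ (p : ℤ) ∣ 1 := fun h1 => by
    have := Int.eq_one_of_dvd_one (by positivity) h1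
    exact hp.out.one_lt.ne' (by exact_mod_cast this)
  by_cases hp2 : p = 2
  · subst hp2
    have hm2 : m % 2 = 1 := by
      have : ¬ (2 : ℤ) ∣ m := by exact_mod_cast hm
      omega
    rcases Nat.le_one_iff_eq_zero_or_eq_one.1 ht with rfl | rfl
    · -- odd number
      have h' : a = (m : ℚ_[2]) * c ^ 2 := by rw [h]; push_cast; ring
      rw [h', isSquare_mul_sq hc] at hsq
      rw [h']
      have hm8 : m % 8 ≠ 1 := by
        intro h8
        apply hsq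
        have := Pool.Agent.W975.BMX.two1 m 1 hm2 (by omega)
        simpa using this
      by_cases h4 : m % 4 = 1
      · refine ⟨((2 * 1 : ℤ) : ℚ_[2]), hcast _ (by norm_num), ?_⟩
        rw [splits_mul_sq' hc, Pool.Agent.W975.BMX.two3 1 m (by norm_num) h4]
        exact hm8
      · refine ⟨-1, neg_ne_zero.2 one_ne_zero, ?_⟩
        rw [splits_mul_sq' hc, splits_comm, (Pool.Agent.W108.BMX.two4 m hm2).1]
        exact h4
    · have h' : a = ((2 * m : ℤ) : ℚ_[2]) * c ^ 2 := by rw [h]; push_cast; ring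
      rw [h']
      refine ⟨((5 : ℤ) : ℚ_[2]), hcast _ (by norm_num), ?_⟩
      rw [splits_mul_sq' hc, splits_comm, Pool.Agent.W975.BMX.two3 m 5 hm2 (by norm_num)]
      norm_num
  · rcases Nat.le_one_iff_eq_zero_or_eq_one.1 ht with rfl | rfl
    · have h' : a = (m : ℚ_[p]) * c ^ 2 := by rw [h]; push_cast; ring
      rw [h', isSquare_mul_sq hc] at hsq
      rw [h']
      refine ⟨((p * 1 : ℤ) : ℚ_[p]), hcast _ (by simpa using hp.out.ne_zero), ?_⟩
      rw [splits_mul_sq' hc, Pool.Agent.W335.BMX.odd3 p hp2 1 m hn1 hm]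
      intro h1
      apply hsq
      have := Pool.Agent.W335.BMX.odd1 p hp2 m 1 hm hn1 (by rw [h1, legendreSym.at_one])
      simpa using this
    · have h' : a = ((p * m : ℤ) : ℚ_[p]) * c ^ 2 := by rw [h]; push_cast; ring
      rw [h']
      obtain ⟨e, he, he1⟩ := exists_nonresidue p hp2
      refine ⟨(e : ℚ_[p]), hcast _ (fun h0 => he (h0 ▸ dvd_zero _)), ?_⟩
      rw [splits_mul_sq' hc, splits_comm, Pool.Agent.W335.BMX.odd3 p hp2 m e hm he]
      exact he1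

/-- a nonsquare which is a sum of two squares -/
theorem exists_nonsq (p : ℕ) [hp : Fact p.Prime] : ∃ n : ℚ_[p], n ≠ 0 ∧ ¬ IsSquare n ∧ Splits n n := by
  have hcast : ∀ n : ℤ, n ≠ 0 → (n : ℚ_[p]) ≠ 0 := fun n hn => by exact_mod_cast hn
  have hn1 : ¬ (p : ℤ) ∣ 1 := fun h1 => by
    have := Int.eq_one_of_dvd_one (by positivity) h1
    exact hp.out.one_lt.ne' (by exact_mod_cast this)
  by_cases hp2 : p = 2
  · subst hp2
    refine ⟨((5 : ℤ) : ℚ_[2]), hcast _ (by norm_num), ?_, ⟨1, 2, 5, Or.inl one_ne_zero, by norm_num⟩⟩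
    intro hsq
    have h1 := (Pool.Agent.W975.BMX.two3 1 5 (by norm_num) (by norm_num)).1 (splits_of_sq_right hsq)
    norm_num at h1
  · obtain ⟨e, he, he1⟩ := exists_nonresidue p hp2
    refine ⟨(e : ℚ_[p]), hcast _ (fun h0 => he (h0 ▸ dvd_zero _)), ?_,
      Pool.Agent.W335.BMX.odd2 p hp2 e e he he⟩
    intro hsq
    exact he1 ((Pool.Agent.W335.BMX.odd3 p hp2 1 e hn1 he).1 (splits_of_sq_right hsq))

/-- independence of two symbols -/
theorem exists_y (p : ℕ) [Fact p.Prime] {A C : ℚ_[p]} (hA : A ≠ 0) (hC : C ≠ 0)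
    (hAC : ¬ IsSquare (A * C)) (hCs : ¬ IsSquare C) :
    ∃ y : ℚ_[p], y ≠ 0 ∧ Splits y A ∧ ¬ Splits y C := by
  have hB := bl_padic p
  obtain ⟨y0, hy0, h0⟩ := nondeg p _ (mul_ne_zero hA hC) hAC
  obtain ⟨y1, hy1, h1⟩ := nondeg p _ hC hCs
  rw [hB y0 A C hy0 hA hC] at h0
  by_cases c0 : Splits y0 A
  · exact ⟨y0, hy0, c0, by tauto⟩
  · have c0' : Splits y0 C := by tauto
    by_cases c1 : Splits y1 A
    · exact ⟨y1, hy1, c1, h1⟩
    · refine ⟨y0 * y1, mul_ne_zero hy0 hy1, ?_, ?_⟩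
      · rw [splits_comm, hB A y0 y1 hA hy0 hy1, splits_comm (b := y0), splits_comm (b := y1)]
        tauto
      · rw [splits_comm, hB C y0 y1 hC hy0 hy1, splits_comm (b := y0), splits_comm (b := y1)]
        tauto

theorem symb_self {K : Type} [Field K] (hB : BL K) {a y : K} (ha : a ≠ 0) (hy : y ≠ 0) :
    Splits y (-a * y) ↔ Splits y a := by
  have h : -a * y = a * (-y) := by ring
  rw [h, hB y a (-y) hy ha (neg_ne_zero.2 hy)]
  have := splits_neg_self y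
  tauto

theorem prop_aux (A B C D : Prop) :
    ((A ↔ B) ↔ (C ↔ D)) ↔ (A ↔ ((C ↔ B) ↔ D)) := by
  by_cases hA : A <;> by_cases hB : B <;> by_cases hC : C <;> by_cases hD : D <;> simp [hA, hB, hC, hD]

theorem symb_pair {K : Type} [Field K] (hB : BL K) {a x y : K} (ha : a ≠ 0) (hx : x ≠ 0) (hy : y ≠ 0) :
    Splits (a * y) (x * y) ↔ (Splits a x ↔ Splits y (-(a * x))) := by
  have hn1 : (-1 : K) ≠ 0 := neg_ne_zero.2 one_ne_zero
  have e1 := hB (a * y) x y (mul_ne_zero ha hy) hx hy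
  have e2 := hB x a y hx ha hy
  have e3 := hB y a y hy ha hy
  have e4 := hB y (a * x) (-1) hy (mul_ne_zero ha hx) hn1
  have e5 := hB y a x hy ha hx
  have e6 := hB y y (-1) hy hy hn1
  have e7 := splits_neg_self y
  rw [show y * (-1) = -y by ring] at e6
  rw [show a * x * (-1) = -(a * x) by ring] at e4
  rw [splits_comm (a := a * y) (b := x), splits_comm (a := a * y) (b := y)] at e1
  have c1 : Splits x a ↔ Splits a x := splits_comm
  have c2 : Splits x y ↔ Splits y x := splits_comm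
  have e8 : Splits y (-1) ↔ Splits y y := (e6.1 e7).symm
  rw [e1, e2, e3, e4, e5, e8, c1, c2]
  exact prop_aux _ _ _ _

/-- **The local lemma.** -/
theorem local_xy (p : ℕ) [Fact p.Prime] {a1 a2 a3 a4 : ℚ_[p]} (h1 : a1 ≠ 0) (h2 : a2 ≠ 0)
    (h3 : a3 ≠ 0) (h4 : a4 ≠ 0) : ∃ x y : ℚ_[p], x ≠ 0 ∧ y ≠ 0 ∧ Splits (a1 * x) (a2 * x) ∧
      Splits y (-a3 * y) ∧ Splits (a4 * y) (x * y) := by
  have hB := bl_padic p
  obtain ⟨x, hx, hs, hn⟩ : ∃ x : ℚ_[p], x ≠ 0 ∧ Splits (a1 * x) (a2 * x) ∧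
      ¬ IsSquare (a3 * -(a4 * x)) := by
    by_cases c1 : IsSquare (a3 * -(a4 * a1))
    swap
    · exact ⟨a1, h1, splits_of_sq_left ⟨a1, rfl⟩, c1⟩
    by_cases c2 : IsSquare (a3 * -(a4 * a2))
    swap
    · exact ⟨a2, h2, splits_of_sq_right ⟨a2, rfl⟩, c2⟩
    obtain ⟨n, hn0, hn1, hn2⟩ := exists_nonsq p
    obtain ⟨r, hr⟩ := c1
    obtain ⟨s, hs⟩ := c2
    have hr0 : r ≠ 0 := by
      rintro rfl
      have : a3 * (a4 * a1) = 0 := by linear_combination -hr
      exact (mul_ne_zero h3 (mul_ne_zero h4 h1)) this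
    have h12 : a1 * a2 = (r * s / (a3 * a4)) ^ 2 := by
      field_simp
      linear_combination (-(a3 * (a4 * a2))) * hr + r ^ 2 * hs
    have hrs : r * s / (a3 * a4) ≠ 0 := by
      intro h0
      rw [h0] at h12
      exact (mul_ne_zero h1 h2) (by rw [h12]; ring)
    refine ⟨a1 * n, mul_ne_zero h1 hn0, ?_, ?_⟩
    · have e1 : a1 * (a1 * n) = n * a1 ^ 2 := by ring
      have e2 : a2 * (a1 * n) = n * (r * s / (a3 * a4)) ^ 2 := by rw [← h12]; ring
      rw [e1, e2, splits_mul_sq h1, splits_mul_sq' hrs]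
      exact hn2
    · have e1 : a3 * -(a4 * (a1 * n)) = n * r ^ 2 := by linear_combination n * hr
      rw [e1, isSquare_mul_sq hr0]
      exact hn1
  by_cases c : Splits a4 x
  · refine ⟨x, 1, hx, one_ne_zero, hs, splits_of_sq_left ⟨1, by ring⟩, ?_⟩
    rw [mul_one, mul_one]
    exact c
  · have hC : -(a4 * x) ≠ 0 := neg_ne_zero.2 (mul_ne_zero h4 hx)
    have hCs : ¬ IsSquare (-(a4 * x)) := by
      rintro ⟨r, hr⟩
      apply c
      have hr0 : r ≠ 0 := by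
        rintro rfl
        exact hC (by rw [hr]; ring)
      have e : x = -a4 * (r / a4) ^ 2 := by
        field_simp
        linear_combination -hr
      rw [e, splits_mul_sq' (div_ne_zero hr0 h4)]
      exact splits_neg_self a4
    obtain ⟨y, hy, hy1, hy2⟩ := exists_y p h3 hC hn hCs
    refine ⟨x, y, hx, hy, hs, (symb_self hB h3 hy).2 hy1, ?_⟩
    rw [symb_pair hB h4 hx hy]
    tauto

end Pool.Agent.Q168.MY
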