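import Pool.Agent.Q168.MY.Glob

/-!
# The Hasse-Minkowski theorem for quaternary forms, and Meyer's theorem for `a x^2 + b y^2 + c z^2 + d w^2 = t^2`
-/

set_option autoImplicit false

namespace Pool.Agent.Q168.MY

open Pool.Agent.W313.BMX (Splits splits_comm splits_mul_sq)
open Finset

theorem splits_real' {a b : ℤ} (ha : a ≠ 0) (hb : b ≠ 0) :
    Splits (a : ℝ) (b : ℝ) ↔ ¬ (a < 0 ∧ b < 0) := by
  rw [← Pool.Agent.W928.BMX.splits_real a b ha hb, not_not]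

/-- a common value over `ℚ` of a binary form -/
theorem rep_global {S : Finset ℕ} (hS : ∀ l ∈ S, l.Prime) (h2 : 2 ∈ S) {s : ℤ}
    (hs : s = 1 ∨ s = -1) {x : ∀ l : ℕ, ∀ _ : Fact l.Prime, ℚ_[l]} (hx : ∀ l hl, x l hl ≠ 0)
    {q : ℕ} {z : ℤ} (hq : q.Prime) (hqS : q ∉ S) (hz : z ≠ 0) (hsz : 0 < s * z)
    (hzx : ∀ l ∈ S, ∀ hl : Fact l.Prime, IsSquare ((z : ℚ_[l]) * x l hl))
    (hzl : ∀ l : ℕ, l.Prime → l ∉ S → l ≠ q → ¬ (l : ℤ) ∣ z)
    {a b : ℤ} (ha : a ≠ 0) (hb : b ≠ 0) (haS : ∀ l : ℕ, l.Prime → (l : ℤ) ∣ a → l ∈ S)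
    (hbS : ∀ l : ℕ, l.Prime → (l : ℤ) ∣ b → l ∈ S)
    (hloc : ∀ l ∈ S, ∀ hl : Fact l.Prime, Splits ((a : ℚ_[l]) * x l hl) ((b : ℚ_[l]) * x l hl))
    (hre : ¬ (a * s < 0 ∧ b * s < 0)) :
    Splits (((a * z : ℤ)) : ℚ) (((b * z : ℤ)) : ℚ) := by
  have hqf : Fact q.Prime := ⟨hq⟩
  have haz := mul_ne_zero ha hz
  have hbz := mul_ne_zero hb hz
  refine conic_global (a * z) (b * z) haz hbz q ?_ ?_
  · rw [splits_real' haz hbz]
    rintro ⟨h3, h4⟩
    apply hre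
    have hss : s * s = 1 := by rcases hs with rfl | rfl <;> norm_num
    constructor
    · by_contra hcon
      push Not at hcon
      have h5 : 0 ≤ (a * s) * (s * z) := mul_nonneg hcon hsz.le
      have h6 : (a * s) * (s * z) = a * z := by linear_combination (a * z) * hss
      omega
    · by_contra hcon
      push Not at hcon
      have h5 : 0 ≤ (b * s) * (s * z) := mul_nonneg hcon hsz.le
      have h6 : (b * s) * (s * z) = b * z := by linear_combination (b * z) * hss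
      omega
  · intro p hp hpq
    by_cases hpS : p ∈ S
    · obtain ⟨r, hr⟩ := hzx p hpS hp
      have hx0 := hx p hp
      have hz0 : (z : ℚ_[p]) ≠ 0 := by exact_mod_cast hz
      have hr0 : r ≠ 0 := by
        rintro rfl
        exact (mul_ne_zero hz0 hx0) (by rw [hr]; ring)
      have hzr : (z : ℚ_[p]) = x p hp * (r / x p hp) ^ 2 := by
        field_simp
        linear_combination hr
      have e1 : ((a * z : ℤ) : ℚ_[p]) = (a : ℚ_[p]) * x p hp * (r / x p hp) ^ 2 := by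
        push_cast
        rw [mul_assoc, ← hzr]
      have e2 : ((b * z : ℤ) : ℚ_[p]) = (b : ℚ_[p]) * x p hp * (r / x p hp) ^ 2 := by
        push_cast
        rw [mul_assoc, ← hzr]
      rw [e1, e2, splits_mul_sq (div_ne_zero hr0 hx0), splits_mul_sq' (div_ne_zero hr0 hx0)]
      exact hloc p hpS hp
    · have hp2 : p ≠ 2 := fun h => hpS (h ▸ h2)
      have hpp : Prime (p : ℤ) := Nat.prime_iff_prime_int.1 hp.out
      have hpz := hzl p hp.out hpS hpq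
      refine Pool.Agent.W335.BMX.odd2 p hp2 _ _ ?_ ?_
      · intro h
        rcases hpp.dvd_or_dvd h with h | h
        · exact hpS (haS p hp.out h)
        · exact hpz h
      · intro h
        rcases hpp.dvd_or_dvd h with h | h
        · exact hpS (hbS p hp.out h)
        · exact hpz h

/-- **Quaternary forms.** -/
theorem hm4 {a b c d : ℤ} (ha : a ≠ 0) (hb : b ≠ 0) (hc : c ≠ 0) (hd : d ≠ 0)
    (hloc : ∀ (p : ℕ) [Fact p.Prime], ∃ x : ℚ_[p], x ≠ 0 ∧ Splits ((a : ℚ_[p]) * x) ((b : ℚ_[p]) * x) ∧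
      Splits ((c : ℚ_[p]) * x) ((d : ℚ_[p]) * x))
    {s : ℤ} (hs : s = 1 ∨ s = -1) (hab : ¬ (a * s < 0 ∧ b * s < 0)) (hcd : ¬ (c * s < 0 ∧ d * s < 0)) :
    ∃ z : ℤ, z ≠ 0 ∧ 0 < s * z ∧ Splits (((a * z : ℤ)) : ℚ) (((b * z : ℤ)) : ℚ) ∧
      Splits (((c * z : ℤ)) : ℚ) (((d * z : ℤ)) : ℚ) := by
  classical
  have hloc' : ∀ l : ℕ, ∀ _ : Fact l.Prime, ∃ x : ℚ_[l], x ≠ 0 ∧
      Splits ((a : ℚ_[l]) * x) ((b : ℚ_[l]) * x) ∧ Splits ((c : ℚ_[l]) * x) ((d : ℚ_[l]) * x) :=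
    fun l hl => hloc l
  choose x hx0 hxab hxcd using hloc'
  obtain ⟨S, hS⟩ : ∃ S : Finset ℕ, S = insert 2 (a * b * c * d).natAbs.primeFactors := ⟨_, rfl⟩
  have habcd : a * b * c * d ≠ 0 := mul_ne_zero (mul_ne_zero (mul_ne_zero ha hb) hc) hd
  have hSp : ∀ l ∈ S, l.Prime := by
    intro l hl
    rw [hS, Finset.mem_insert] at hl
    rcases hl with rfl | hl
    · exact Nat.prime_two
    · exact Nat.prime_of_mem_primeFactors hl
  have h2 : 2 ∈ S := by rw [hS]; exact Finset.mem_insert_self _ _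
  have hSd : ∀ l : ℕ, l.Prime → (l : ℤ) ∣ a * b * c * d → l ∈ S := by
    intro l hl h
    rw [hS, Finset.mem_insert]
    right
    rw [Nat.mem_primeFactors]
    exact ⟨hl, Int.natCast_dvd.1 h, Int.natAbs_ne_zero.2 habcd⟩
  obtain ⟨q, z, hq, hqS, hz, hsz, hzx, hzl⟩ := approx S hSp hs x hx0
  refine ⟨z, hz, hsz, ?_, ?_⟩
  · exact rep_global hSp h2 hs hx0 hq hqS hz hsz hzx hzl ha hb
      (fun l hl h => hSd l hl (Dvd.dvd.mul_right (Dvd.dvd.mul_right (Dvd.dvd.mul_right h _) _) _))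
      (fun l hl h => hSd l hl (Dvd.dvd.mul_right (Dvd.dvd.mul_right (Dvd.dvd.mul_left h _) _) _))
      (fun l hl hlp => hxab l hlp) hab
  · exact rep_global hSp h2 hs hx0 hq hqS hz hsz hzx hzl hc hd
      (fun l hl h => hSd l hl (Dvd.dvd.mul_right (Dvd.dvd.mul_left h _) _))
      (fun l hl h => hSd l hl (Dvd.dvd.mul_left h _))
      (fun l hl hlp => hxcd l hlp) hcd

theorem rep_of_splits {a b c : ℚ} (ha : a ≠ 0) (hb : b ≠ 0) (hc : c ≠ 0)
    (h : Splits (a * c) (b * c)) : ∃ y z : ℚ, a * y ^ 2 + b * z ^ 2 = c :=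
  (Pool.Agent.H527R9.CC.t_HS.2.1 ℚ a b c ha hb hc).2 h

/-- **Meyer's theorem** for the forms `a x^2 + b y^2 + c z^2 + d w^2 - t^2`. -/
theorem meyer_rat {a1 a2 a3 a4 : ℤ} (h1 : 0 < a1) (h2 : 0 < a2) (h3 : 0 < a3) (h4 : 0 < a4) :
    ∃ r1 r2 r3 r4 t : ℚ, t ≠ 0 ∧ a1 * r1 ^ 2 + a2 * r2 ^ 2 + a3 * r3 ^ 2 + a4 * r4 ^ 2 = t ^ 2 := by
  classical
  have hloc : ∀ l : ℕ, ∀ _ : Fact l.Prime, ∃ x y : ℚ_[l], x ≠ 0 ∧ y ≠ 0 ∧
      Splits ((a1 : ℚ_[l]) * x) ((a2 : ℚ_[l]) * x) ∧ Splits y (-(a3 : ℚ_[l]) * y) ∧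
      Splits ((a4 : ℚ_[l]) * y) (x * y) := fun l hl =>
    local_xy l (by exact_mod_cast h1.ne') (by exact_mod_cast h2.ne') (by exact_mod_cast h3.ne')
      (by exact_mod_cast h4.ne')
  choose x y hx0 hy0 hxa hy3 hy4 using hloc
  obtain ⟨S, hS⟩ : ∃ S : Finset ℕ, S = insert 2 (a1 * a2 * a3 * a4).natAbs.primeFactors := ⟨_, rfl⟩
  have hne : a1 * a2 * a3 * a4 ≠ 0 := by positivity
  have hSp : ∀ l ∈ S, l.Prime := by
    intro l hl
    rw [hS, Finset.mem_insert] at hl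
    rcases hl with rfl | hl
    · exact Nat.prime_two
    · exact Nat.prime_of_mem_primeFactors hl
  have hS2 : 2 ∈ S := by rw [hS]; exact Finset.mem_insert_self _ _
  have hSd : ∀ l : ℕ, l.Prime → (l : ℤ) ∣ a1 * a2 * a3 * a4 → l ∈ S := by
    intro l hl h
    rw [hS, Finset.mem_insert]
    right
    rw [Nat.mem_primeFactors]
    exact ⟨hl, Int.natCast_dvd.1 h, Int.natAbs_ne_zero.2 hne⟩
  obtain ⟨q, z, hq, hqS, hz, hsz, hzx, hzl⟩ := approx S hSp (s := 1) (Or.inl rfl) x hx0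
  rw [one_mul] at hsz
  have r1 := rep_global hSp hS2 (s := 1) (Or.inl rfl) hx0 hq hqS hz (by rw [one_mul]; exact hsz) hzx hzl
    (a := a1) (b := a2) h1.ne' h2.ne'
    (fun l hl h => hSd l hl (Dvd.dvd.mul_right (Dvd.dvd.mul_right (Dvd.dvd.mul_right h _) _) _))
    (fun l hl h => hSd l hl (Dvd.dvd.mul_right (Dvd.dvd.mul_right (Dvd.dvd.mul_left h _) _) _))
    (fun l hl hlp => hxa l hlp) (by omega)
  -- the quaternary form
  have r2 : ∃ w : ℤ, w ≠ 0 ∧ 0 < 1 * w ∧ Splits (((1 * w : ℤ)) : ℚ) (((-a3 * w : ℤ)) : ℚ) ∧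
      Splits (((a4 * w : ℤ)) : ℚ) (((z * w : ℤ)) : ℚ) := by
    refine hm4 (a := 1) (b := -a3) (c := a4) (d := z) one_ne_zero (by omega) h4.ne' hz ?_
      (s := 1) (Or.inl rfl) (by omega) (by omega)
    intro p hp
    have h40 : (a4 : ℚ_[p]) ≠ 0 := by exact_mod_cast h4.ne'
    by_cases hpS : p ∈ S
    · refine ⟨y p hp, hy0 p hp, ?_, ?_⟩
      · have := hy3 p hp
        push_cast
        rw [one_mul]
        exact this
      · obtain ⟨r, hr⟩ := hzx p hpS hp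
        have hx0' := hx0 p hp
        have hz0 : (z : ℚ_[p]) ≠ 0 := by exact_mod_cast hz
        have hr0 : r ≠ 0 := by
          rintro rfl
          exact (mul_ne_zero hz0 hx0') (by rw [hr]; ring)
        have hzr : (z : ℚ_[p]) = x p hp * (r / x p hp) ^ 2 := by
          field_simp
          linear_combination hr
        have e1 : (z : ℚ_[p]) * y p hp = x p hp * y p hp * (r / x p hp) ^ 2 := by
          rw [hzr]
          field_simp
        rw [e1, splits_mul_sq' (div_ne_zero hr0 hx0')]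
        exact hy4 p hp
    · have hp2 : p ≠ 2 := fun h => hpS (h ▸ hS2)
      have hpp : Prime (p : ℤ) := Nat.prime_iff_prime_int.1 hp.out
      have hp4 : ¬ (p : ℤ) ∣ a4 := fun h => hpS (hSd p hp.out (Dvd.dvd.mul_left h _))
      have hp3 : ¬ (p : ℤ) ∣ a3 := fun h =>
        hpS (hSd p hp.out (Dvd.dvd.mul_right (Dvd.dvd.mul_left h _) _))
      refine ⟨(a4 : ℚ_[p]), h40, ?_, splits_of_sq_left ⟨_, rfl⟩⟩
      have e1 : ((1 : ℤ) : ℚ_[p]) * (a4 : ℚ_[p]) = ((a4 : ℤ) : ℚ_[p]) := by push_cast; ring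
      have e2 : ((-a3 : ℤ) : ℚ_[p]) * (a4 : ℚ_[p]) = ((-a3 * a4 : ℤ) : ℚ_[p]) := by push_cast; ring
      rw [e1, e2]
      refine Pool.Agent.W335.BMX.odd2 p hp2 _ _ hp4 ?_
      intro h
      rcases hpp.dvd_or_dvd h with h | h
      · exact hp3 ((dvd_neg).1 h)
      · exact hp4 h
  obtain ⟨w, hw, -, hw1, hw2⟩ := r2
  have hzq : (z : ℚ) ≠ 0 := by exact_mod_cast hz
  have hwq : (w : ℚ) ≠ 0 := by exact_mod_cast hw
  obtain ⟨u1, u2, hu⟩ := rep_of_splits (a := a1) (b := a2) (c := z) (by exact_mod_cast h1.ne')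
    (by exact_mod_cast h2.ne') hzq (by push_cast at r1; exact r1)
  obtain ⟨v1, v2, hv⟩ := rep_of_splits (a := 1) (b := -a3) (c := w) one_ne_zero
    (by exact_mod_cast (neg_ne_zero.2 h3.ne')) hwq (by push_cast at hw1; exact hw1)
  obtain ⟨v3, v4, hv'⟩ := rep_of_splits (a := a4) (b := z) (c := w) (by exact_mod_cast h4.ne')
    hzq hwq (by push_cast at hw2; exact hw2)
  refine ⟨u1 * v4, u2 * v4, v2, v3, v1, ?_, ?_⟩
  · rintro rfl
    have p1 : (0 : ℚ) ≤ a3 * v2 ^ 2 := mul_nonneg (by exact_mod_cast h3.le) (sq_nonneg _)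
    have p2 : (0 : ℚ) ≤ a4 * v3 ^ 2 := mul_nonneg (by exact_mod_cast h4.le) (sq_nonneg _)
    have p3 : (0 : ℚ) ≤ z * v4 ^ 2 := mul_nonneg (by exact_mod_cast hsz.le) (sq_nonneg _)
    apply hwq
    linarith
  · linear_combination v4 ^ 2 * hu - hv + hv'

/-- Meyer's theorem, integral solutions -/
theorem meyer {a1 a2 a3 a4 : ℤ} (h1 : 0 < a1) (h2 : 0 < a2) (h3 : 0 < a3) (h4 : 0 < a4) :
    ∃ r1 r2 r3 r4 t : ℤ, t ≠ 0 ∧ a1 * r1 ^ 2 + a2 * r2 ^ 2 + a3 * r3 ^ 2 + a4 * r4 ^ 2 = t ^ 2 := by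
  obtain ⟨r1, r2, r3, r4, t, ht, h⟩ := meyer_rat h1 h2 h3 h4
  obtain ⟨D, hD⟩ : ∃ D : ℤ, D = r1.den * r2.den * r3.den * r4.den * t.den := ⟨_, rfl⟩
  have hd : ∀ r : ℚ, (r.den : ℚ) ≠ 0 := fun r => by exact_mod_cast r.den_ne_zero
  have hn : ∀ r : ℚ, (r.num : ℚ) = r * r.den := fun r => (Rat.mul_den_eq_num r).symm
  refine ⟨r1.num * (r2.den * r3.den * r4.den * t.den), r2.num * (r1.den * r3.den * r4.den * t.den),
    r3.num * (r1.den * r2.den * r4.den * t.den), r4.num * (r1.den * r2.den * r3.den * t.den),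
    t.num * (r1.den * r2.den * r3.den * r4.den), ?_, ?_⟩
  · have := r1.den_ne_zero
    have := r2.den_ne_zero
    have := r3.den_ne_zero
    have := r4.den_ne_zero
    have h0 := Rat.num_ne_zero.2 ht
    positivity
  · have : ((a1 * (r1.num * (r2.den * r3.den * r4.den * t.den)) ^ 2 +
        a2 * (r2.num * (r1.den * r3.den * r4.den * t.den)) ^ 2 +
        a3 * (r3.num * (r1.den * r2.den * r4.den * t.den)) ^ 2 +
        a4 * (r4.num * (r1.den * r2.den * r3.den * t.den)) ^ 2 : ℤ) : ℚ) =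
        ((t.num * (r1.den * r2.den * r3.den * r4.den)) ^ 2 : ℤ) := by
      push_cast
      rw [hn r1, hn r2, hn r3, hn r4, hn t]
      linear_combination ((r1.den : ℚ) * r2.den * r3.den * r4.den * t.den) ^ 2 * h
    exact_mod_cast this

end Pool.Agent.Q168.MY
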